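import Pool.Agent.Helper40.Nil.Stmts2

set_option autoImplicit false

namespace Pool.Agent.Helper40.Nil

open Filter Topology
open scoped Classical

universe u

/-- the bad elements -/
noncomputable def folnB {N : Type u} [Group N] (K : Finset N) (s : N) : Finset N :=
  K.filter fun k => s * k ∉ K

theorem mem_folnB {N : Type u} [Group N] {K : Finset N} {s x : N} :
    x ∈ folnB K s ↔ x ∈ K ∧ s * x ∉ K := Finset.mem_filter

/-- Folner sets, with filters -/
def folnP (N : Type u) [Group N] : Prop := ∀ (S : Finset N) (ε : ℝ), 0 < ε →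
  ∃ K : Finset N, K.Nonempty ∧ ∀ s ∈ S, ((folnB K s).card : ℝ) ≤ ε * K.card

/-- the sets of products -/
noncomputable def folnK {Z : Type u} [CommGroup Z] (S : Finset Z) (n : ℕ) : Finset Z :=
  (Fintype.piFinset fun _ : S => Finset.range n).image fun f => ∏ s : S, (s : Z) ^ f s

theorem folnK_card {Z : Type u} [CommGroup Z] (S : Finset Z) (n : ℕ) :
    (folnK S n).card ≤ n ^ S.card := by
  refine Finset.card_image_le.trans ?_
  rw [Fintype.card_piFinset]
  simp

theorem folnK_mono {Z : Type u} [CommGroup Z] (S : Finset Z) (n : ℕ) :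
    folnK S n ⊆ folnK S (n + 1) := by
  refine Finset.image_subset_image ?_
  intro f hf
  rw [Fintype.mem_piFinset] at hf ⊢
  intro s
  have := Finset.mem_range.1 (hf s)
  exact Finset.mem_range.2 (by omega)

theorem folnK_mul {Z : Type u} [CommGroup Z] (S : Finset Z) (n : ℕ) {s k : Z} (hs : s ∈ S)
    (hk : k ∈ folnK S n) : s * k ∈ folnK S (n + 1) := by
  obtain ⟨f, hf, rfl⟩ := Finset.mem_image.1 hk
  refine Finset.mem_image.2 ⟨fun t => f t + if t = ⟨s, hs⟩ then 1 else 0, ?_, ?_⟩
  · rw [Fintype.mem_piFinset] at hf ⊢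
    intro t
    have := Finset.mem_range.1 (hf t)
    refine Finset.mem_range.2 ?_
    split_ifs <;> omega
  · have h1 : ∀ t : S, (t : Z) ^ (f t + if t = ⟨s, hs⟩ then 1 else 0) =
        (t : Z) ^ f t * if t = ⟨s, hs⟩ then (t : Z) else 1 := by
      intro t
      rw [pow_add]
      split_ifs <;> simp
    simp only [h1, Finset.prod_mul_distrib, Finset.prod_ite_eq', Finset.mem_univ, if_true]
    exact mul_comm _ _

theorem folnK_nonempty {Z : Type u} [CommGroup Z] (S : Finset Z) (n : ℕ) :
    (folnK S (n + 1)).Nonempty := by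
  refine Finset.Nonempty.image ?_ _
  exact ⟨fun _ => 0, Fintype.mem_piFinset.2 fun _ => Finset.mem_range.2 (Nat.succ_pos n)⟩

/-- commutative groups -/
theorem foln_comm (Z : Type u) [CommGroup Z] : folnP Z := by
  intro S ε hε
  have hex : ∃ n : ℕ, ((folnK S (n + 2)).card : ℝ) ≤ (1 + ε) * (folnK S (n + 1)).card := by
    by_contra hcon
    push Not at hcon
    have h1 : ∀ n : ℕ, (1 + ε) ^ n ≤ ((folnK S (n + 1)).card : ℝ) := by
      intro n
      induction n with
      | zero =>
        rw [pow_zero]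
        exact_mod_cast Finset.card_pos.2 (folnK_nonempty S 0)
      | succ n ih =>
        refine le_trans ?_ (hcon n).le
        rw [pow_succ, mul_comm]
        exact mul_le_mul_of_nonneg_left ih (by linarith)
    have h2 : ∀ n : ℕ, (1 + ε) ^ n ≤ ((n + 1 : ℕ) : ℝ) ^ S.card := by
      intro n
      refine (h1 n).trans ?_
      exact_mod_cast folnK_card S (n + 1)
    have h3 := tendsto_pow_const_div_const_pow_of_one_lt S.card (show 1 < 1 + ε by linarith)
    have h4 : (0 : ℝ) < 1 / (1 + ε) := by positivity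
    obtain ⟨m, hm⟩ := ((h3.eventually (gt_mem_nhds h4)).and (eventually_ge_atTop 1)).exists
    obtain ⟨hm1, hm2⟩ := hm
    obtain ⟨n, rfl⟩ : ∃ n, m = n + 1 := ⟨m - 1, by omega⟩
    rw [div_lt_div_iff₀ (by positivity) (by positivity), one_mul, pow_succ] at hm1
    have h5 := mul_le_mul_of_nonneg_right (h2 n) (show (0 : ℝ) ≤ 1 + ε by linarith)
    linarith
  obtain ⟨n, hn⟩ := hex
  refine ⟨folnK S (n + 1), folnK_nonempty S n, fun s hs => ?_⟩
  have h1 : (folnB (folnK S (n + 1)) s).card ≤
      (folnK S (n + 2) \ folnK S (n + 1)).card := by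
    refine Finset.card_le_card_of_injOn (fun k => s * k) ?_ (fun a _ b _ h => mul_left_cancel h)
    intro k hk
    have hk := mem_folnB.1 (Finset.mem_coe.1 hk)
    exact Finset.mem_coe.2 (Finset.mem_sdiff.2 ⟨folnK_mul S (n + 1) hs hk.1, hk.2⟩)
  have h2 := Finset.card_sdiff_add_card_eq_card (folnK_mono S (n + 1))
  have h3 : (((folnK S (n + 2) \ folnK S (n + 1)).card : ℕ) : ℝ) + (folnK S (n + 1)).card =
      (folnK S (n + 2)).card := by exact_mod_cast h2
  have h4 : (((folnB (folnK S (n + 1)) s).card : ℕ) : ℝ) ≤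
      ((folnK S (n + 2) \ folnK S (n + 1)).card : ℕ) := by exact_mod_cast h1
  linarith

theorem foln_center (N : Type u) [Group N] : folnP (Subgroup.center N) :=
  @foln_comm (Subgroup.center N) { (inferInstance : Group (Subgroup.center N)) with
      mul_comm := fun a b => Subtype.ext (Subgroup.mem_center_iff.1 b.2 a) }

/-- central extensions -/
theorem foln_ext (N : Type u) [Group N] (hQ : folnP (N ⧸ Subgroup.center N)) : folnP N := by
  intro S ε hε
  obtain ⟨F, hF0, hF⟩ := hQ (S.image (QuotientGroup.mk : N → N ⧸ Subgroup.center N)) (ε / 2)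
    (half_pos hε)
  let σ : N ⧸ Subgroup.center N → N := Quotient.out
  have hσ : ∀ q : N ⧸ Subgroup.center N, ((σ q : N) : N ⧸ Subgroup.center N) = q :=
    fun q => Quotient.out_eq' q
  have hz : ∀ (s : N) (q : N ⧸ Subgroup.center N),
      (σ ((s : N ⧸ Subgroup.center N) * q))⁻¹ * (s * σ q) ∈ Subgroup.center N := by
    intro s q
    rw [← QuotientGroup.eq_one_iff]
    rw [QuotientGroup.mk_mul, QuotientGroup.mk_inv, hσ, QuotientGroup.mk_mul, hσ]
    exact inv_mul_cancel _
  let z : N → N ⧸ Subgroup.center N → Subgroup.center N := fun s q => ⟨_, hz s q⟩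
  have hzc : ∀ (s : N) (q : N ⧸ Subgroup.center N), s * σ q = σ ((s : N ⧸ Subgroup.center N) * q) * (z s q : N) := by
    intro s q
    change _ = _ * ((σ ((s : N ⧸ Subgroup.center N) * q))⁻¹ * (s * σ q))
    rw [mul_inv_cancel_left]
  obtain ⟨K, hK0, hK⟩ := foln_center N ((S ×ˢ F).image fun x => z x.1 x.2) (ε / 2)
    (half_pos hε)
  let g : (N ⧸ Subgroup.center N) × Subgroup.center N → N := fun x => σ x.1 * (x.2 : N)
  have hgq : ∀ x, ((g x : N) : N ⧸ Subgroup.center N) = x.1 := by
    intro x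
    change (((σ x.1 * (x.2 : N) : N)) : N ⧸ Subgroup.center N) = x.1
    rw [QuotientGroup.mk_mul, hσ, (QuotientGroup.eq_one_iff (x.2 : N)).2 x.2.2, mul_one]
  have hg : Function.Injective g := by
    rintro ⟨q, k⟩ ⟨q', k'⟩ h
    have h1 : q = q' := by
      have := congrArg (fun n : N => (n : N ⧸ Subgroup.center N)) h
      simpa only [hgq] using this
    subst h1
    have h2 : (k : N) = k' := mul_left_cancel h
    rw [Prod.mk.injEq]
    exact ⟨rfl, Subtype.ext h2⟩
  refine ⟨(F ×ˢ K).image g, (hF0.product hK0).image g, fun s hs => ?_⟩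
  have hcard : ((F ×ˢ K).image g).card = F.card * K.card := by
    rw [Finset.card_image_of_injective _ hg, Finset.card_product]
  -- the bad pairs
  have hsub : folnB ((F ×ˢ K).image g) s ⊆
      ((folnB F (s : N ⧸ Subgroup.center N) ×ˢ K) ∪
        F.biUnion fun q => {q} ×ˢ folnB K (z s q)).image g := by
    intro x hx
    obtain ⟨hx1, hx2⟩ := mem_folnB.1 hx
    obtain ⟨⟨q, k⟩, hqk, rfl⟩ := Finset.mem_image.1 hx1
    obtain ⟨hq, hk⟩ := Finset.mem_product.1 hqk
    refine Finset.mem_image.2 ⟨(q, k), ?_, rfl⟩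
    by_cases h1 : (s : N ⧸ Subgroup.center N) * q ∈ F
    · by_cases h2 : z s q * k ∈ K
      · exfalso
        apply hx2
        refine Finset.mem_image.2 ⟨((s : N ⧸ Subgroup.center N) * q, z s q * k),
          Finset.mem_product.2 ⟨h1, h2⟩, ?_⟩
        change σ ((s : N ⧸ Subgroup.center N) * q) * ((z s q * k : Subgroup.center N) : N)
          = s * (σ q * (k : N))
        rw [← mul_assoc s, hzc, Subgroup.coe_mul]
        simp only [mul_assoc]
      · refine Finset.mem_union_right _ (Finset.mem_biUnion.2 ⟨q, hq, ?_⟩)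
        exact Finset.mem_product.2 ⟨Finset.mem_singleton_self q, mem_folnB.2 ⟨hk, h2⟩⟩
    · exact Finset.mem_union_left _ (Finset.mem_product.2 ⟨mem_folnB.2 ⟨hq, h1⟩, hk⟩)
  have h1 := (Finset.card_le_card hsub).trans (Finset.card_image_le.trans
    (Finset.card_union_le _ _))
  rw [Finset.card_product] at h1
  have h2 : (F.biUnion fun q => {q} ×ˢ folnB K (z s q)).card ≤
      ∑ q ∈ F, (folnB K (z s q)).card := by
    refine Finset.card_biUnion_le.trans (Finset.sum_le_sum fun q _ => ?_)
    rw [Finset.card_product, Finset.card_singleton, one_mul]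
  have h3 : ((∑ q ∈ F, (folnB K (z s q)).card : ℕ) : ℝ) ≤
      F.card * (ε / 2 * K.card) := by
    push_cast
    calc ∑ q ∈ F, ((folnB K (z s q)).card : ℝ) ≤ ∑ q ∈ F, (ε / 2 * K.card) := by
          refine Finset.sum_le_sum fun q hq => ?_
          exact hK (z s q) (Finset.mem_image.2 ⟨(s, q), Finset.mem_product.2 ⟨hs, hq⟩, rfl⟩)
      _ = F.card * (ε / 2 * K.card) := by rw [Finset.sum_const, nsmul_eq_mul]
  have h4 : ((((folnB F (s : N ⧸ Subgroup.center N)).card * K.card : ℕ)) : ℝ) ≤
      (ε / 2 * F.card) * K.card := by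
    push_cast
    exact mul_le_mul_of_nonneg_right (hF _ (Finset.mem_image_of_mem _ hs)) (Nat.cast_nonneg _)
  have h5 : ((folnB ((F ×ˢ K).image g) s).card : ℝ) ≤
      (((folnB F (s : N ⧸ Subgroup.center N)).card * K.card : ℕ) : ℝ) +
      ((∑ q ∈ F, (folnB K (z s q)).card : ℕ) : ℝ) := by
    exact_mod_cast h1.trans (Nat.add_le_add_left h2 _)
  rw [hcard]
  push_cast
  push_cast at h3 h4 h5
  linarith

theorem st_FOLN : ST_FOLN.{u} := by
  intro N _ hN
  have key : folnP N := by
    refine Group.nilpotent_center_quotient_ind (P := fun G _ _ => folnP G) N ?_ ?_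
    · intro G _ _ S ε hε
      refine ⟨{1}, Finset.singleton_nonempty 1, fun s _ => ?_⟩
      have : folnB ({1} : Finset G) s = ∅ := by
        refine Finset.filter_eq_empty_iff.2 fun k _ => ?_
        rw [not_not, Finset.mem_singleton]
        exact Subsingleton.elim _ _
      rw [this]
      simp [hε.le]
    · intro G _ _ h
      exact foln_ext G h
  intro S ε hε
  obtain ⟨K, hK, h1⟩ := key S ε hε
  refine ⟨K, hK, fun s hs => ?_⟩
  rw [Nat.subtype_card (folnB K s) (fun x => mem_folnB)]
  exact h1 s hs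

end Pool.Agent.Helper40.Nil
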